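import Pool.Agent.Helper35.Cq.Defs

/-!
# CQ-4: a large cut
-/

set_option autoImplicit false

open Finset Module
open scoped Classical

namespace Pool.Agent.Helper35.Cq

theorem exists_cut {κ : Type*} (B : Finset κ) (w : κ → κ → ℝ) (hw : ∀ i j, w i j = w j i) :
    ∃ S ⊆ B, (∑ i ∈ B, ∑ j ∈ B.erase i, w i j) / 4 ≤ ∑ i ∈ S, ∑ j ∈ B \ S, w i j := by
  induction B using Finset.induction_on with
  | empty => exact ⟨∅, subset_rfl, by simp⟩
  | insert v B hv ih =>
    obtain ⟨S, hS, h⟩ := ih
    have hvS : v ∉ S := fun h' => hv (hS h')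
    -- the total
    have htot : ∑ i ∈ insert v B, ∑ j ∈ (insert v B).erase i, w i j =
        ∑ i ∈ B, ∑ j ∈ B.erase i, w i j + 2 * ∑ j ∈ B, w v j := by
      rw [sum_insert hv, erase_insert hv]
      have h1 : ∑ i ∈ B, ∑ j ∈ (insert v B).erase i, w i j =
          ∑ i ∈ B, (w i v + ∑ j ∈ B.erase i, w i j) := by
        refine sum_congr rfl fun i hi => ?_
        have hne : v ≠ i := fun h' => hv (h' ▸ hi)
        rw [erase_insert_of_ne hne, sum_insert]
        exact fun h' => hv (mem_of_mem_erase h')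
      rw [h1, sum_add_distrib]
      have h2 : ∑ i ∈ B, w i v = ∑ j ∈ B, w v j := sum_congr rfl fun i _ => hw i v
      rw [h2]
      ring
    have hg : ∑ i ∈ S, w i v + ∑ j ∈ B \ S, w v j = ∑ j ∈ B, w v j := by
      have h2 : ∑ i ∈ S, w i v = ∑ j ∈ S, w v j := sum_congr rfl fun i _ => hw i v
      rw [h2, add_comm]
      exact sum_sdiff hS
    have hc1 : ∑ i ∈ S, ∑ j ∈ insert v B \ S, w i j =
        ∑ i ∈ S, ∑ j ∈ B \ S, w i j + ∑ i ∈ S, w i v := by
      rw [insert_sdiff_of_notMem _ hvS, ← sum_add_distrib]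
      refine sum_congr rfl fun i _ => ?_
      rw [sum_insert (fun h' => hv (mem_sdiff.1 h').1), add_comm]
    have hc2 : ∑ i ∈ insert v S, ∑ j ∈ insert v B \ insert v S, w i j =
        ∑ i ∈ S, ∑ j ∈ B \ S, w i j + ∑ j ∈ B \ S, w v j := by
      have h3 : insert v B \ insert v S = B \ S := by
        ext j
        simp only [mem_sdiff, mem_insert, not_or]
        constructor
        · rintro ⟨h1 | h1, h2, h3⟩
          · exact absurd h1 h2
          · exact ⟨h1, h3⟩
        · rintro ⟨h1, h2⟩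
          exact ⟨Or.inr h1, fun h' => hv (h' ▸ h1), h2⟩
      rw [h3, sum_insert hvS, add_comm]
    rcases le_total (∑ i ∈ S, w i v) (∑ j ∈ B \ S, w v j) with hle | hle
    · refine ⟨insert v S, insert_subset_insert _ hS, ?_⟩
      rw [htot, hc2]
      linarith
    · refine ⟨S, hS.trans (subset_insert _ _), ?_⟩
      rw [htot, hc1]
      linarith

end Pool.Agent.Helper35.Cq
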